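import Pool.Agent.V8H28.DV.Div

set_option autoImplicit false

namespace Pool.Agent.Results.MP_821da1_nt.DenominatorsOnCurves

/-- The sum of the absolute values of the coefficients. -/
def len (F : MvPolynomial (Fin 2) ℤ) : ℕ := ∑ m ∈ F.support, (F.coeff m).natAbs

/-- Let `F = 0` be a plane curve irreducible over `ℚ` and let `N / P` be a quotient of two integer
polynomials with a pole at some affine complex point of the curve. At every integer point of the
curve the denominator of `N / P` is at least a fixed power of the size of the point, up to a factor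
polynomial in the coefficients; the exponents depend on the degrees only. -/
theorem result : ∃ C : ℕ → ℕ, ∀ (d : ℕ) (F P N : MvPolynomial (Fin 2) ℤ),
    F.totalDegree ≤ d → P.totalDegree ≤ d → N.totalDegree ≤ d →
    Irreducible (MvPolynomial.map (Int.castRingHom ℚ) F) →
    (∃ a b : ℂ, MvPolynomial.aeval ![a, b] F = 0 ∧ MvPolynomial.aeval ![a, b] P = 0 ∧
      MvPolynomial.aeval ![a, b] N ≠ 0) →
    ∀ x y : ℤ, MvPolynomial.eval ![x, y] F = 0 → MvPolynomial.eval ![x, y] P ≠ 0 →
      max x.natAbs y.natAbs ≤ (C d * (len F * len P * len N *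
        ((MvPolynomial.eval ![x, y] N : ℚ) / (MvPolynomial.eval ![x, y] P : ℚ)).den)) ^ C d :=
  Pool.Agent.V8H28.DV.main3

end Pool.Agent.Results.MP_821da1_nt.DenominatorsOnCurves
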