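import Pool.Agent.V8H28.Few

/-!
# All but boundedly many integer points satisfy a bound polynomial in the coefficients

On every plane curve `F = 0` of degree `d` that is irreducible over `ℚ`, all but at most `C(d)` of
the integer points satisfy `max |x| |y| ≤ (C(d) len F) ^ C(d)`, unless the curve has exactly one
place at infinity, and this place is real of degree `1` or `2`. The number `C(d)` depends on the
degree alone; the bound contains no constant that depends on the residue field at infinity.

The monic case is a helper theorem of the starting library (`Pool.Agent.Y910.E.monic_few`,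
interpolation determinants and the two point principle on a weighted model at infinity).
-/

set_option autoImplicit false

namespace Pool.Agent.Results.MP_821da1_nt.FewLargePoints

/-- The length of an integer polynomial: the sum of the absolute values of its coefficients. -/
def len (F : MvPolynomial (Fin 2) ℤ) : ℕ := ∑ m ∈ F.support, (F.coeff m).natAbs

/-- The coordinate ring over `ℚ` of the affine plane curve `F = 0`. -/
abbrev CoordRing (F : MvPolynomial (Fin 2) ℤ) : Type :=
  MvPolynomial (Fin 2) ℚ ⧸ Ideal.span {MvPolynomial.map (Int.castRingHom ℚ) F}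

/-- `A` is a place at infinity of the curve `F = 0`: a valuation ring of its function field `L`
that contains `ℚ` but not both coordinate functions. -/
def AtInfinity (F : MvPolynomial (Fin 2) ℤ) (L : Type) [Field L] [Algebra (CoordRing F) L]
    (A : ValuationSubring L) : Prop :=
  (∀ q : ℚ, algebraMap (CoordRing F) L (algebraMap ℚ (CoordRing F) q) ∈ A) ∧
    ∃ i : Fin 2, algebraMap (CoordRing F) L (Ideal.Quotient.mk _ (MvPolynomial.X i)) ∉ A

/-- For every `d` there is `C` such that for all `F ∈ ℤ[x, y]` of degree `d` that are irreducible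
over `ℚ`, with function field `L`: either at most `C` integer points of `F = 0` have
`max |x| |y| > (C len F) ^ C`, or the curve `F = 0` has exactly one place `A` at infinity, and the
residue field of `A` is `ℚ[T]/(g)` with `g` of degree `1` or `2` and with a real zero. -/
theorem result :
    ∃ C : ℕ → ℕ, ∀ F : MvPolynomial (Fin 2) ℤ,
      Irreducible (MvPolynomial.map (Int.castRingHom ℚ) F) →
      ∀ (L : Type) [Field L] [Algebra (CoordRing F) L] [IsFractionRing (CoordRing F) L],
        {P : ℤ × ℤ | MvPolynomial.eval ![P.1, P.2] F = 0 ∧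
          (C F.totalDegree * len F) ^ C F.totalDegree < max P.1.natAbs P.2.natAbs}.encard
            ≤ (C F.totalDegree : ℕ) ∨
        ∃ A : ValuationSubring L, (∀ A' : ValuationSubring L, AtInfinity F L A' ↔ A' = A) ∧
          ∃ g : Polynomial ℚ, g.Monic ∧ Irreducible g ∧
            Nonempty (IsLocalRing.ResidueField A ≃+* AdjoinRoot g) ∧ g.natDegree ≤ 2 ∧
            ∃ η : ℝ, Polynomial.aeval η g = 0 := by
  choose C hc using Pool.Agent.V8H28.Few.main
  refine ⟨C, ?_⟩
  intro F hirr L _ _ _
  have : Nontrivial (CoordRing F) := (algebraMap (CoordRing F) L).domain_nontrivial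
  let _ : Algebra ℚ L :=
    ((algebraMap (CoordRing F) L).comp (algebraMap ℚ (CoordRing F))).toAlgebra
  obtain ⟨π, hπ⟩ : ∃ π : MvPolynomial (Fin 2) ℚ →ₐ[ℚ] L, ∀ w, π w
      = algebraMap (CoordRing F) L (Ideal.Quotient.mk _ w) :=
    ⟨{ toRingHom := (algebraMap (CoordRing F) L).comp (Ideal.Quotient.mk _)
       commutes' := fun q => rfl }, fun w => rfl⟩
  have hker : ∀ w, π w = 0 ↔ MvPolynomial.map (Int.castRingHom ℚ) F ∣ w := by
    intro w
    rw [hπ, IsFractionRing.to_map_eq_zero_iff, Ideal.Quotient.eq_zero_iff_mem,
      Ideal.mem_span_singleton]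
  have hsurj : ∀ z : L, ∃ w1 w2, π w2 ≠ 0 ∧ π w2 * z = π w1 := by
    intro z
    obtain ⟨a, s, hs, hz⟩ := IsFractionRing.div_surjective (A := CoordRing F) z
    obtain ⟨w1, rfl⟩ := Ideal.Quotient.mk_surjective a
    obtain ⟨w2, rfl⟩ := Ideal.Quotient.mk_surjective s
    have hne : π w2 ≠ 0 := by
      rw [hπ]
      exact IsFractionRing.to_map_ne_zero_of_mem_nonZeroDivisors hs
    refine ⟨w1, w2, hne, ?_⟩
    rw [← hz, ← hπ, ← hπ]
    field_simp
  rcases hc F.totalDegree F rfl hirr L π hker hsurj with h | ⟨A, hA, g, h1, h2, h3, h4, h5⟩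
  · left
    obtain ⟨S, hS⟩ : ∃ S, S = {P : ℤ × ℤ | MvPolynomial.eval ![P.1, P.2] F = 0 ∧
          (C F.totalDegree * len F) ^ C F.totalDegree < max P.1.natAbs P.2.natAbs} := ⟨_, rfl⟩
    rw [← hS]
    by_contra hcon
    rw [not_le] at hcon
    have h6 : ((C F.totalDegree + 1 : ℕ) : ℕ∞) ≤ S.encard := by
      rw [Nat.cast_add, Nat.cast_one]
      exact Order.add_one_le_of_lt hcon
    obtain ⟨t, ht, htc⟩ := Set.exists_subset_encard_eq h6
    have hfin : t.Finite := Set.finite_of_encard_eq_coe htc
    have h7 := h hfin.toFinset (by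
      intro P hP
      rw [Set.Finite.mem_toFinset] at hP
      have h8 := ht hP
      rw [hS] at h8
      exact h8)
    rw [hfin.encard_eq_coe_toFinset_card, Nat.cast_inj] at htc
    omega
  · right
    refine ⟨A, ?_, g, h1, h2, h3, h4, h5⟩
    intro A'
    rw [← hA A', AtInfinity]
    apply and_congr Iff.rfl
    rw [Fin.exists_fin_two, hπ, hπ]
    tauto

end Pool.Agent.Results.MP_821da1_nt.FewLargePoints
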