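import Pool.Agent.V8H28.PV.Final

set_option autoImplicit false

namespace Pool.Agent.Results.MP_821da1_nt.PowerValues

/-- The sum of the absolute values of the coefficients. -/
def len (F : MvPolynomial (Fin 2) ℤ) : ℕ := ∑ m ∈ F.support, (F.coeff m).natAbs

/-- The coordinate ring over `ℚ` of the affine plane curve `F = 0`. -/
abbrev CoordRing (F : MvPolynomial (Fin 2) ℤ) : Type :=
  MvPolynomial (Fin 2) ℚ ⧸ Ideal.span {MvPolynomial.map (Int.castRingHom ℚ) F}

/-- The function on the curve `F = 0` given by the polynomial `G`, as an element of the function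
field `L`. -/
noncomputable def fn (F G : MvPolynomial (Fin 2) ℤ) (L : Type) [Field L] [Algebra (CoordRing F) L] : L :=
  algebraMap (CoordRing F) L (Ideal.Quotient.mk _ (MvPolynomial.map (Int.castRingHom ℚ) G))

/-- `A` is a place at infinity of the curve `F = 0`: a valuation ring of its function field `L`
that contains `ℚ` but not both coordinate functions. -/
def AtInfinity (F : MvPolynomial (Fin 2) ℤ) (L : Type) [Field L] [Algebra (CoordRing F) L]
    (A : ValuationSubring L) : Prop :=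
  (∀ q : ℚ, algebraMap (CoordRing F) L (algebraMap ℚ (CoordRing F) q) ∈ A) ∧
    ∃ i : Fin 2, algebraMap (CoordRing F) L (Ideal.Quotient.mk _ (MvPolynomial.X i)) ∉ A

/-- Let `Q` be a function on the plane curve `F = 0` which is not an `ℓ`-th power in the function
field, but at the places at infinity is an `ℓ`-th power `W ^ ℓ` up to a factor with value `1`. The
integer points at which `|Q|` is the `ℓ`-th power of an integer are polynomially bounded in the
coefficients of `F` and `Q`. If moreover `P ^ ℓ = Q U` on the curve with `Q` and `U` coprime over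
`ℤ`, then all the integer points of the curve are. -/
theorem result :
    ∃ C : ℕ → ℕ → ℕ, ∀ d ℓ : ℕ, ℓ.Prime → ∀ F Q : MvPolynomial (Fin 2) ℤ,
      F.totalDegree ≤ d → Q.totalDegree ≤ d →
      Irreducible (MvPolynomial.map (Int.castRingHom ℚ) F) →
      ∀ (L : Type) [Field L] [Algebra (CoordRing F) L] [IsFractionRing (CoordRing F) L] (W : L),
        (∀ w : L, w ^ ℓ ≠ fn F Q L) →
        (∀ A : ValuationSubring L, AtInfinity F L A →
          A.valuation (fn F Q L / W ^ ℓ - 1) < 1) →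
        (∀ x y z : ℤ, MvPolynomial.eval ![x, y] F = 0 →
          |MvPolynomial.eval ![x, y] Q| = |z| ^ ℓ →
          max x.natAbs y.natAbs ≤ (C d ℓ * (len F * len Q)) ^ C d ℓ) ∧
        ((∃ P U A B : MvPolynomial (Fin 2) ℤ, fn F P L ^ ℓ = fn F Q L * fn F U L ∧
            fn F A L * fn F Q L + fn F B L * fn F U L = 1) →
          ∀ x y : ℤ, MvPolynomial.eval ![x, y] F = 0 →
            max x.natAbs y.natAbs ≤ (C d ℓ * (len F * len Q)) ^ C d ℓ) := by
  have hm : ∀ d ℓ : ℕ, ∃ Cc : ℕ, ℓ.Prime → _ := fun d ℓ => by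
    by_cases hℓ : ℓ.Prime
    · obtain ⟨Cc, hCc⟩ := Pool.Agent.V8H28.PV.main2 d ℓ hℓ
      exact ⟨Cc, fun _ => hCc⟩
    · exact ⟨0, fun h => absurd h hℓ⟩
  choose C hC using hm
  refine ⟨C, ?_⟩
  intro d ℓ hℓ F Q hFd hQd hirr L _ _ _ W hQp hW
  have : Nontrivial (CoordRing F) := (algebraMap (CoordRing F) L).domain_nontrivial
  let _ : Algebra ℚ L :=
    ((algebraMap (CoordRing F) L).comp (algebraMap ℚ (CoordRing F))).toAlgebra
  obtain ⟨π, hπ⟩ : ∃ π : MvPolynomial (Fin 2) ℚ →ₐ[ℚ] L, ∀ w, π w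
      = algebraMap (CoordRing F) L (Ideal.Quotient.mk _ w) :=
    ⟨{ toRingHom := (algebraMap (CoordRing F) L).comp (Ideal.Quotient.mk _)
       commutes' := fun q => rfl }, fun w => rfl⟩
  have hfn : ∀ G, fn F G L = π (MvPolynomial.map (Int.castRingHom ℚ) G) := fun G => by
    rw [hπ, fn]
  have hker : ∀ w, π w = 0 ↔ MvPolynomial.map (Int.castRingHom ℚ) F ∣ w := by
    intro w
    rw [hπ, IsFractionRing.to_map_eq_zero_iff, Ideal.Quotient.eq_zero_iff_mem,
      Ideal.mem_span_singleton]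
  have hsurj : ∀ z : L, ∃ w1 w2, π w2 ≠ 0 ∧ π w2 * z = π w1 := by
    intro z
    obtain ⟨a, s, hs, hz⟩ := IsFractionRing.div_surjective (A := CoordRing F) z
    obtain ⟨w1, rfl⟩ := Ideal.Quotient.mk_surjective a
    obtain ⟨w2, rfl⟩ := Ideal.Quotient.mk_surjective s
    have hne : π w2 ≠ 0 := by
      rw [hπ]
      exact IsFractionRing.to_map_ne_zero_of_mem_nonZeroDivisors hs
    refine ⟨w1, w2, hne, ?_⟩
    rw [← hz, ← hπ, ← hπ]
    field_simp
  have hpart1 : ∀ x y z : ℤ, MvPolynomial.eval ![x, y] F = 0 →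
      |MvPolynomial.eval ![x, y] Q| = |z| ^ ℓ →
      max x.natAbs y.natAbs ≤ (C d ℓ * (len F * len Q)) ^ C d ℓ := by
    intro x y z hF hQ
    have h := hC d ℓ hℓ F Q hFd hQd hirr L π hker hsurj W (by
      intro w
      rw [← hfn]; exact hQp w) (by
      intro A hA1 hA2
      rw [← hfn]
      apply hW A
      refine ⟨hA1, ?_⟩
      by_contra hcon
      push Not at hcon
      apply hA2
      rw [hπ, hπ]
      exact ⟨hcon 0, hcon 1⟩) x y z hF hQ
    exact max_le h.1 h.2
  refine ⟨hpart1, ?_⟩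
  rintro ⟨P, U, A, B, hPU, hAB⟩ x y hF
  -- values at the integer point
  have hval : ∀ G : MvPolynomial (Fin 2) ℤ, fn F G L = 0 → MvPolynomial.eval ![x, y] G = 0 := by
    intro G hG
    rw [hfn, hker] at hG
    obtain ⟨q, hq⟩ := hG
    have h1 : ∀ H : MvPolynomial (Fin 2) ℤ, MvPolynomial.eval ![(x : ℚ), (y : ℚ)]
        (MvPolynomial.map (Int.castRingHom ℚ) H) = ((MvPolynomial.eval ![x, y] H : ℤ) : ℚ) := by
      intro H
      rw [MvPolynomial.eval_map]
      have h2 := MvPolynomial.eval₂_comp_left (Int.castRingHom ℚ) (RingHom.id ℤ) ![x, y] H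
      rw [RingHom.comp_id] at h2
      have h3 : (Int.castRingHom ℚ) (MvPolynomial.eval₂ (RingHom.id ℤ) ![x, y] H)
          = ((MvPolynomial.eval ![x, y] H : ℤ) : ℚ) := rfl
      rw [← h3, h2]
      congr 1
      ext i
      fin_cases i
      · simp
      · simp
    have h4 := congrArg (MvPolynomial.eval ![(x : ℚ), (y : ℚ)]) hq
    rw [map_mul, h1, h1, hF, Int.cast_zero, zero_mul] at h4
    exact_mod_cast h4
  have hadd : ∀ G H, fn F (G + H) L = fn F G L + fn F H L := by
    intro G H; rw [hfn, hfn, hfn, map_add, map_add]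
  have hmul : ∀ G H, fn F (G * H) L = fn F G L * fn F H L := by
    intro G H; rw [hfn, hfn, hfn, map_mul, map_mul]
  have hsub : ∀ G H, fn F (G - H) L = fn F G L - fn F H L := by
    intro G H; rw [hfn, hfn, hfn, map_sub, map_sub]
  have hpowf : ∀ G (n : ℕ), fn F (G ^ n) L = fn F G L ^ n := by
    intro G n; rw [hfn, hfn, map_pow, map_pow]
  have hone : fn F 1 L = 1 := by rw [hfn, map_one, map_one]
  have e1 := hval (P ^ ℓ - Q * U) (by rw [hsub, hpowf, hmul, hPU, sub_self])
  have e2 := hval (A * Q + B * U - 1) (by rw [hsub, hadd, hmul, hmul, hone, hAB, sub_self])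
  rw [map_sub, map_pow, map_mul] at e1
  rw [map_sub, map_add, map_mul, map_mul, map_one] at e2
  have hcop : IsCoprime (MvPolynomial.eval ![x, y] Q) (MvPolynomial.eval ![x, y] U) :=
    ⟨_, _, sub_eq_zero.1 e2⟩
  obtain ⟨z, hz⟩ := exists_associated_pow_of_mul_eq_pow' hcop (sub_eq_zero.1 e1).symm
  apply hpart1 x y z hF
  have h1 := Int.natAbs_eq_iff_associated.2 hz
  rw [← abs_pow, Int.abs_eq_natAbs, Int.abs_eq_natAbs, h1]

end Pool.Agent.Results.MP_821da1_nt.PowerValues
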